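import Pool.Agent.NH83.EM.D
import Pool.Agent.NH83.EM.G3

/-!
# The KZ associator: relations of growing degree in `μ` and in the coefficients

Polynomial relations between `μ = 2πi` and the multiple zeta values `ζ(a_1 N + b_1, ..., a_r N + b_r)`,
`b_i ≤ (log N) ^ a`, of degree at most `c log N` in `μ` and at most `c log N / log log N` in the zeta values (if
`ζ(a_1 N + b_1, ...)` has degree `a_1 + ... + a_r`), with integer coefficients of total size at most `2 ^ (N ^ γ)`,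
`γ < 1`, times a power of `μ`: the coefficient of each power of `μ` is a consequence of the stuffle product.

The proof uses a transcendence measure of `π` for all degrees, whose exponent grows at most exponentially with the degree.
-/

set_option autoImplicit false

namespace Pool.Agent.Results.MP_807c24_nt.GrowingDegreeInMu

open Real

/-- `trunc [s_1, ..., s_r] m` is the sum of `∏ n_i ^ (-s_i)` over `m > n_1 > ... > n_r ≥ 1` -/
noncomputable def trunc : List ℕ → ℕ → ℝ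
  | [], _ => 1
  | s :: l, m => ∑ j ∈ Finset.Ico 1 m, trunc l j / (j : ℝ) ^ s

/-- the multiple zeta value `ζ(s_1, ..., s_r)`, `s_1` belongs to the largest variable -/
noncomputable def mzv : List ℕ → ℝ
  | [] => 1
  | s :: l => ∑' m : ℕ, trunc l (m + 1) / ((m + 1 : ℕ) : ℝ) ^ s

/-- `μ = 2πi` -/
noncomputable def mu : ℂ := 2 * π * Complex.I

/-- admissible indices: `(s_1, ..., s_r)` with `r ≥ 1`, `s_1 ≥ 2` and all `s_i ≥ 1` -/
def AdmissibleIndex : List ℕ → Prop
  | [] => False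
  | s :: l => 2 ≤ s ∧ ∀ t ∈ l, 1 ≤ t

/-- the number of arguments `≥ 2` -/
def height (w : List ℕ) : ℕ := w.countP (fun s => decide (2 ≤ s))

/-- the list of the indices in the stuffle (series) product of two indices -/
def stuffles : List ℕ → List ℕ → List (List ℕ)
  | [], l => [l]
  | i :: k, [] => [i :: k]
  | i :: k, j :: l => (stuffles k (j :: l)).map (i :: ·) ++ (stuffles (i :: k) l).map (j :: ·) ++
      (stuffles k l).map ((i + j) :: ·)
termination_by k l => k.length + l.length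

/-- `Z` has the stuffle product: `Z(k) Z(l) = ∑ Z(m)` over the indices `m` of the stuffle product
of `k` and `l`, for all admissible indices `k` and `l` -/
def HasStuffleProduct {A : Type} [CommRing A] (Z : List ℕ → A) : Prop :=
  ∀ k l : List ℕ, AdmissibleIndex k → AdmissibleIndex l →
    Z k * Z l = ((stuffles k l).map Z).sum

/-- words; the letter `(a, b)` stands for the argument `a N + b` -/
abbrev Word := List (ℕ × ℕ)

/-- the index `(a_1 N + b_1, ..., a_r N + b_r)` of a word -/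
def index (N : ℕ) (w : Word) : List ℕ := w.map fun y => y.1 * N + y.2

/-- the sum `a_1 + ... + a_r` -/
def size (w : Word) : ℕ := (w.map Prod.fst).sum

/-- polynomials in the variables `X_w`, `w` a word `(a_1, b_1) ... (a_r, b_r)` with `r ≥ 1`, `a_i ≥ 1`
and `b_i ≤ J`, of degree at most `D` if `X_w` has degree `a_1 + ... + a_r` -/
def Near (D J : ℕ) (f : MvPolynomial Word ℤ) : Prop :=
  ∀ m ∈ f.support, (∀ w ∈ m.support, w ≠ [] ∧ ∀ y ∈ w, 1 ≤ y.1 ∧ y.2 ≤ J) ∧
    ∑ w ∈ m.support, m w * size w ≤ D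

lemma trunc_eq (w : List ℕ) : ∀ m, trunc w m = Pool.Agent.Y760.ZG.hr w m := by
  induction w with
  | nil => intro m; rw [trunc, Pool.Agent.Y760.ZG.hr_nil]
  | cons s w ih =>
    intro m
    rw [trunc, Pool.Agent.Y760.ZG.hr_cons]
    exact Finset.sum_congr rfl fun j _ => by rw [ih]

lemma mzv_eq : mzv = Pool.Agent.Y760.ZG.mz := by
  funext w
  cases w with
  | nil => rw [mzv, Pool.Agent.Y760.ZG.mz]
  | cons s w =>
    rw [mzv, Pool.Agent.Y760.ZG.mz]
    exact tsum_congr fun m => by rw [trunc_eq]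

lemma adm_iff (u : List ℕ) : Pool.Agent.Y777.AM.St.Ad u ↔ AdmissibleIndex u := by
  cases u with
  | nil => exact Iff.rfl
  | cons s l => exact Iff.rfl

lemma adm_small {u : List ℕ} (h : AdmissibleIndex u) :
    (∀ m ∈ u, 1 ≤ m) ∧ ∀ x ∈ u.head?, 2 ≤ x := by
  cases u with
  | nil => exact h.elim
  | cons s l =>
    refine ⟨fun m hm => ?_, fun x hx => ?_⟩
    · rcases List.mem_cons.1 hm with rfl | hm
      · exact le_trans (by norm_num) h.1
      · exact h.2 m hm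
    · rw [List.head?_cons, Option.mem_def, Option.some.injEq] at hx
      rw [← hx]
      exact h.1

lemma stuffles_eq (u v : List ℕ) : stuffles u v = Pool.Agent.Y760.ZF.sti u v := by
  induction u, v using Pool.Agent.Y760.ZF.sti.induct with
  | case1 v => rw [stuffles, Pool.Agent.Y760.ZF.sti]
  | case2 x u => rw [stuffles, Pool.Agent.Y760.ZF.sti]
  | case3 x u y v ih1 ih2 ih3 => rw [stuffles, Pool.Agent.Y760.ZF.sti, ih1, ih2, ih3]

lemma mu_re : mu.re = 0 := by simp [mu]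

lemma mu_im : mu.im = 2 * π := by simp [mu]

lemma mu_sq : mu ^ 2 = ((-(4 * π ^ 2) : ℝ) : ℂ) := by
  rw [mu, mul_pow, mul_pow, Complex.I_sq]
  push_cast
  ring

lemma sum_two (y : ℕ → ℂ) : ∀ n, ∑ j ∈ Finset.range (2 * n), y j =
    ∑ i ∈ Finset.range n, (y (2 * i) + y (2 * i + 1)) := by
  intro n
  induction n with
  | zero => simp
  | succ n ih =>
    rw [show 2 * (n + 1) = 2 * n + 1 + 1 by ring, Finset.sum_range_succ, Finset.sum_range_succ, ih,
      Finset.sum_range_succ, add_assoc]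

/-- the real and the imaginary part of a polynomial in `μ` with real coefficients -/
lemma split_mu (x : ℕ → ℝ) (E : ℕ) (hx : ∀ j, E < j → x j = 0) :
    ∑ j ∈ Finset.range (E + 1), (x j : ℂ) * mu ^ j =
      ((∑ i : Fin (E + 1), Pool.Agent.NH83.EM.Th E i * x (2 * (i : ℕ)) : ℝ) : ℂ) +
      ((∑ i : Fin (E + 1), Pool.Agent.NH83.EM.Th E i * x (2 * (i : ℕ) + 1) : ℝ) : ℂ) * mu := by
  have h1 : ∑ j ∈ Finset.range (E + 1), (x j : ℂ) * mu ^ j = ∑ j ∈ Finset.range (2 * (E + 1)), (x j : ℂ) * mu ^ j := by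
    refine Finset.sum_subset (fun j hj => ?_) fun j _ hj => ?_
    · rw [Finset.mem_range] at hj ⊢
      omega
    · rw [Finset.mem_range] at hj
      rw [hx j (by omega)]
      simp
  rw [h1, sum_two]
  push_cast
  rw [Finset.sum_mul, ← Finset.sum_add_distrib, ← Fin.sum_univ_eq_sum_range
    (fun i => (x (2 * i) : ℂ) * mu ^ (2 * i) + (x (2 * i + 1) : ℂ) * mu ^ (2 * i + 1)) (E + 1)]
  refine Finset.sum_congr rfl fun i _ => ?_
  rw [pow_succ, pow_mul, mu_sq, Pool.Agent.NH83.EM.Th]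
  push_cast
  ring

/-- Let `a ≥ 0`, `0 < γ < 1`, `ε > 0`, and let `κ`, `C`, `B` be real. There is `c > 0` such that for all large `N`,
all `E ≤ c log N`, all `D` with `D log log N ≤ c log N`, all `J ≤ (log N) ^ a`, all integer polynomials `f_0, ..., f_E`
as in the definition of `Near` whose coefficients have total size at most `2 ^ (N ^ γ)`, all integers `m` with
`|m| ≤ B N`, all finite sets `H` of admissible indices of weight at most `κ N` with at least `ε N` arguments `≥ 2` and all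
complex `b_h` with `|b_h| ≤ C ^ N`: if
`|μ ^ m (f_0(ζ) + f_1(ζ) μ + ... + f_E(ζ) μ ^ E - ∑_H b_h ζ(h))| ≤ N ^ (-ε N)`
(`μ = 2πi`, `X_w` evaluated at `ζ(index N w)`), then for all `j ≤ E`: `f_j(ζ) = 0`, and `f_j(Z) = 0` for all commutative
rings `A` and all functions `Z` from the indices to `A` that have the stuffle product. -/
theorem result (a γ ε κ C B : ℝ) (ha : 0 ≤ a) (hγ0 : 0 < γ) (hγ1 : γ < 1) (hε : 0 < ε) :
    ∃ c : ℝ, 0 < c ∧ ∃ N0 : ℕ, ∀ N : ℕ, N0 ≤ N → ∀ E D J : ℕ, (E : ℝ) ≤ c * Real.log N →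
      (D : ℝ) * Real.log (Real.log N) ≤ c * Real.log N → (J : ℝ) ≤ (Real.log N) ^ a →
      ∀ f : ℕ → MvPolynomial Word ℤ, (∀ j ≤ E, Near D J (f j)) →
      (∀ j ≤ E, ∑ m ∈ (f j).support, |(((f j).coeff m : ℤ) : ℝ)| ≤ (2 : ℝ) ^ ((N : ℝ) ^ γ)) →
      ∀ H : Finset (List ℕ),
      (∀ h ∈ H, AdmissibleIndex h ∧ (h.sum : ℝ) ≤ κ * N ∧ ε * N ≤ height h) →
      ∀ b : List ℕ → ℂ, (∀ h ∈ H, ‖b h‖ ≤ C ^ N) → ∀ m : ℤ, |(m : ℝ)| ≤ B * N →
      ‖mu ^ m * (∑ j ∈ Finset.range (E + 1),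
          ((MvPolynomial.aeval (fun w => mzv (index N w)) (f j) : ℝ) : ℂ) * mu ^ j -
        ∑ h ∈ H, b h * mzv h)‖ ≤ ((N : ℝ) ^ (ε * N))⁻¹ →
      ∀ j ≤ E, MvPolynomial.aeval (fun w => mzv (index N w)) (f j) = 0 ∧
        ∀ (A : Type) [CommRing A] (Z : List ℕ → A), HasStuffleProduct Z →
          MvPolynomial.aeval (fun w => Z (index N w)) (f j) = 0 := by
  classical
  rw [mzv_eq]
  obtain ⟨kp, c0, hc0, hmeas, cE, hcE, N3, h3E⟩ := Pool.Agent.NH83.EM.cond (s := (1 - γ) / 8) (t := (1 + γ) / 2)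
    (by linarith) (by linarith)
  obtain ⟨c, hc, N1, h1⟩ := Pool.Agent.NH83.EM.polyV κ C ha hγ0 hγ1 (half_pos hε)
  -- the power of μ
  have hmu1 : (1 : ℝ) ≤ 2 * π := by linarith [Real.pi_gt_three]
  have ev2 : ∀ᶠ k : ℕ in Filter.atTop, (2 * π) ^ (B * k) * ((k : ℝ) ^ (ε * k))⁻¹ ≤
      ((k : ℝ) ^ (ε / 2 * k))⁻¹ := by
    have h2 : Filter.Tendsto (fun k : ℕ => ((k : ℝ) ^ (ε / 2))) Filter.atTop Filter.atTop :=
      (tendsto_rpow_atTop (by linarith)).comp tendsto_natCast_atTop_atTop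
    filter_upwards [h2.eventually_ge_atTop ((2 * π) ^ B), Filter.eventually_ge_atTop 1] with k hk hk1
    have hk0 : (0 : ℝ) < k := by exact_mod_cast hk1
    have h3 : (2 * π) ^ (B * k) ≤ (k : ℝ) ^ (ε / 2 * k) := by
      rw [Real.rpow_mul (by positivity), Real.rpow_mul hk0.le]
      exact Real.rpow_le_rpow (by positivity) hk hk0.le
    have h4 : (k : ℝ) ^ (ε * k) = (k : ℝ) ^ (ε / 2 * k) * (k : ℝ) ^ (ε / 2 * k) := by
      rw [← Real.rpow_add hk0]
      congr 1
      ring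
    rw [h4, mul_inv, ← mul_assoc]
    have h5 : (0 : ℝ) < (k : ℝ) ^ (ε / 2 * k) := by positivity
    have h6 : (2 * π) ^ (B * k) * ((k : ℝ) ^ (ε / 2 * k))⁻¹ ≤ 1 := by
      rw [← div_eq_mul_inv, div_le_one h5]
      exact h3
    calc (2 * π) ^ (B * k) * ((k : ℝ) ^ (ε / 2 * k))⁻¹ * ((k : ℝ) ^ (ε / 2 * k))⁻¹
        ≤ 1 * ((k : ℝ) ^ (ε / 2 * k))⁻¹ := mul_le_mul_of_nonneg_right h6 (by positivity)
      _ = _ := one_mul _
  obtain ⟨N2, h2⟩ := Filter.eventually_atTop.1 ev2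
  refine ⟨min c cE, lt_min hc hcE, max (max N1 N2) (max N3 1),
    fun N hN E D J hE hD hJ f hf hfC H hH b hb m hm hs => ?_⟩
  have hN1 : (1 : ℝ) ≤ N := by
    have : 1 ≤ N := by omega
    exact_mod_cast this
  have hlogN : 0 ≤ Real.log N := Real.log_nonneg hN1
  obtain ⟨hκE, hAE⟩ := h3E N (by omega) E (hE.trans (mul_le_mul_of_nonneg_right (min_le_right _ _) hlogN))
  have hD' : (D : ℝ) * Real.log (Real.log N) ≤ c * Real.log N :=
    hD.trans (mul_le_mul_of_nonneg_right (min_le_left _ _) hlogN)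
  have hbase : ∀ h ∈ H, (∀ m ∈ h, 1 ≤ m) ∧ (∀ x ∈ h.head?, 2 ≤ x) ∧ (h.sum : ℝ) ≤ κ * N ∧
      ε / 2 * N ≤ Pool.Agent.Y777.AM.ht h := by
    intro h hh
    refine ⟨(adm_small (hH h hh).1).1, (adm_small (hH h hh).1).2, (hH h hh).2.1, ?_⟩
    have h3 : ε * N ≤ Pool.Agent.Y777.AM.ht h := (hH h hh).2.2
    have h4 : ε / 2 * N ≤ ε * N := by nlinarith
    linarith
  -- the polynomials, zero from `E + 1` on
  obtain ⟨F, hF⟩ : ∃ F : ℕ → MvPolynomial Word ℤ, F = fun j => if j ≤ E then f j else 0 := ⟨_, rfl⟩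
  have hFf : ∀ j ≤ E, F j = f j := by
    intro j hj
    rw [hF]
    exact if_pos hj
  have hF0 : ∀ j, E < j → F j = 0 := by
    intro j hj
    rw [hF]
    exact if_neg (by omega)
  have hFn : ∀ j, Near D J (F j) := by
    intro j
    by_cases hj : j ≤ E
    · rw [hFf j hj]
      exact hf j hj
    · rw [hF0 j (by omega)]
      intro m hm
      simp at hm
  have hFC : ∀ j, ∑ m ∈ (F j).support, |(((F j).coeff m : ℤ) : ℝ)| ≤ (2 : ℝ) ^ ((N : ℝ) ^ γ) := by
    intro j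
    by_cases hj : j ≤ E
    · rw [hFf j hj]
      exact hfC j hj
    · rw [hF0 j (by omega)]
      simp
      positivity
  obtain ⟨x, hx⟩ : ∃ x : ℕ → ℝ, x = fun j => MvPolynomial.aeval (fun w =>
    Pool.Agent.Y760.ZG.mz (index N w)) (F j) := ⟨_, rfl⟩
  have hx0 : ∀ j, E < j → x j = 0 := by
    intro j hj
    rw [hx]
    simp only
    rw [hF0 j hj, map_zero]
  have hxf : ∀ j ∈ Finset.range (E + 1), ((MvPolynomial.aeval (fun w =>
      Pool.Agent.Y760.ZG.mz (index N w)) (f j) : ℝ) : ℂ) * mu ^ j = (x j : ℂ) * mu ^ j := by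
    intro j hj
    rw [Finset.mem_range] at hj
    rw [hx]
    simp only
    rw [hFf j (by omega)]
  rw [Finset.sum_congr rfl hxf, split_mu x E hx0] at hs
  -- the difference without the power of μ
  obtain ⟨R, hR⟩ : ∃ R : ℝ, R = ∑ i : Fin (E + 1), Pool.Agent.NH83.EM.Th E i * x (2 * (i : ℕ)) := ⟨_, rfl⟩
  obtain ⟨I, hI⟩ : ∃ I : ℝ, I = ∑ i : Fin (E + 1), Pool.Agent.NH83.EM.Th E i * x (2 * (i : ℕ) + 1) := ⟨_, rfl⟩
  obtain ⟨V, hV⟩ : ∃ V : ℂ, V = (R : ℂ) + (I : ℂ) * mu - ∑ h ∈ H, b h * Pool.Agent.Y760.ZG.mz h := ⟨_, rfl⟩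
  rw [← hR, ← hI, ← hV] at hs
  have hmun : ‖mu‖ = 2 * π := by
    rw [mu, norm_mul, norm_mul, Complex.norm_I, mul_one, Complex.norm_ofNat, Complex.norm_real,
      Real.norm_eq_abs, abs_of_pos Real.pi_pos]
  have hVs : ‖V‖ ≤ ((N : ℝ) ^ (ε / 2 * N))⁻¹ := by
    have hmum : ((2 * π) ^ (B * N))⁻¹ ≤ ‖mu ^ m‖ := by
      rw [norm_zpow, hmun, ← Real.rpow_intCast, ← Real.rpow_neg (by positivity)]
      refine Real.rpow_le_rpow_of_exponent_le hmu1 ?_
      have := neg_abs_le (m : ℝ)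
      linarith
    rw [norm_mul] at hs
    have hpos : (0 : ℝ) < (2 * π) ^ (B * N) := by positivity
    have h3 : ((2 * π) ^ (B * N))⁻¹ * ‖V‖ ≤ ((N : ℝ) ^ (ε * N))⁻¹ :=
      le_trans (mul_le_mul_of_nonneg_right hmum (norm_nonneg _)) hs
    calc ‖V‖ = (2 * π) ^ (B * N) * (((2 * π) ^ (B * N))⁻¹ * ‖V‖) := by
          rw [← mul_assoc, mul_inv_cancel₀ hpos.ne', one_mul]
      _ ≤ (2 * π) ^ (B * N) * ((N : ℝ) ^ (ε * N))⁻¹ := mul_le_mul_of_nonneg_left h3 hpos.le
      _ ≤ _ := h2 N (by omega)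
  have hre : V.re = R - ∑ h ∈ H, (b h).re * Pool.Agent.Y760.ZG.mz h := by
    rw [hV, Complex.sub_re, Complex.add_re, Complex.ofReal_re, Complex.re_ofReal_mul, mu_re, mul_zero, add_zero,
      Complex.re_sum]
    congr 1
    exact Finset.sum_congr rfl fun h _ => by rw [Complex.re_mul_ofReal]
  have him : V.im = 2 * π * (I - ∑ h ∈ H, ((b h).im / (2 * π)) * Pool.Agent.Y760.ZG.mz h) := by
    rw [hV, Complex.sub_im, Complex.add_im, Complex.ofReal_im, Complex.im_ofReal_mul, mu_im, zero_add,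
      Complex.im_sum, mul_sub, Finset.mul_sum]
    congr 1
    · ring
    · refine Finset.sum_congr rfl fun h _ => ?_
      rw [Complex.im_mul_ofReal]
      field_simp
  -- the real form
  have key : ∀ s : ℕ, ∀ b' : List ℕ → ℝ, (∀ h ∈ H, |b' h| ≤ C ^ N) →
      |∑ i : Fin (E + 1), Pool.Agent.NH83.EM.Th E i * x (2 * (i : ℕ) + s) -
      ∑ h ∈ H, b' h * Pool.Agent.Y760.ZG.mz h| ≤ ((N : ℝ) ^ (ε / 2 * N))⁻¹ →
      ∀ i : Fin (E + 1),
      MvPolynomial.aeval (fun w => Pool.Agent.Y760.ZG.mz (index N w)) (F (2 * (i : ℕ) + s)) = 0 ∧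
        ∀ (A : Type) [CommRing A] (Z : List ℕ → A), HasStuffleProduct Z →
          MvPolynomial.aeval (fun w => Z (index N w)) (F (2 * (i : ℕ) + s)) = 0 := by
    intro s b' hb' hs' i
    have h3 := h1 N (by omega) (E + 1) (Pool.Agent.NH83.EM.Th E) (c0 E) (kp E) (hc0 E) (hmeas E) hAE hκE D J hD' hJ
      (fun i => F (2 * (i : ℕ) + s)) (fun j => hFn _) (fun j => hFC _) H hbase b' hb' (by
      refine le_trans (le_of_eq ?_) hs'
      rw [hx]
      rfl)
    obtain ⟨g1, g2⟩ := h3 i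
    refine ⟨g1, fun A _ Z hZ => g2 A Z fun u v hu hv => ?_⟩
    rw [hZ u v ((adm_iff u).1 hu) ((adm_iff v).1 hv), stuffles_eq]
  have k1 := key 0 (fun h => (b h).re) (fun h hh => (Complex.abs_re_le_norm _).trans (hb h hh)) (by
    simp only [add_zero]
    rw [← hR, ← hre]
    exact (Complex.abs_re_le_norm _).trans hVs)
  have k2 := key 1 (fun h => (b h).im / (2 * π)) (fun h hh => by
    rw [abs_div, abs_of_pos (by positivity : (0 : ℝ) < 2 * π)]
    exact (div_le_self (abs_nonneg _) hmu1).trans ((Complex.abs_im_le_norm _).trans (hb h hh))) (by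
    rw [← hI]
    have h3 := (Complex.abs_im_le_norm _).trans hVs
    rw [him, abs_mul, abs_of_pos (by positivity : (0 : ℝ) < 2 * π)] at h3
    refine le_trans (le_mul_of_one_le_left (abs_nonneg _) hmu1) h3)
  intro j hj
  rw [← hFf j hj]
  rcases Nat.even_or_odd' j with ⟨i, hi | hi⟩
  · have h3 := k1 ⟨i, by omega⟩
    simp only [add_zero] at h3
    rw [hi]
    exact h3
  · have h3 := k2 ⟨i, by omega⟩
    rw [hi]
    exact h3

end Pool.Agent.Results.MP_807c24_nt.GrowingDegreeInMu
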