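import Pool.Agent.TH120.HM.Cor
import Pool.Agent.NH24.GD.Q

/-!
# The KZ associator: relations of degree at most `3` in `2πi` and `ζ(3)`, with multiple zeta values of
large weight near a rational grid

The coefficients of the KZ associator at the words `A^{k_1 - 1} B ... A^{k_r - 1} B` are, up to sign, the multiple
zeta values `ζ(k_1, ..., k_r)`. The theorem: no nontrivial combination of the values of weight `k`, of all
depths, whose arguments are near positive multiples of `k / b`, with coefficients in the span over `ℤ` of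
`1, μ, μ², μ³, φ, μ φ` (`μ = 2πi`, `φ = ζ(3)`) of height at most `2 ^ (k ^ γ)` vanishes; with an explicit lower
bound.

The proof combines the classes of tuples `∏ n_i ^ (a_i)` (`Pool.Agent.NH24.GD.general`) with the measure of
linear independence of `1, ζ(2), ζ(3)` (`Pool.Agent.TH120.HM.measure_all`).
-/

set_option autoImplicit false

namespace Pool.Agent.Results.MP_807c24_nt.NearMultiplesDegreeThree

open Real

/-- `trunc [s_1, ..., s_r] m` is the sum of `∏ n_i ^ (-s_i)` over `m > n_1 > ... > n_r ≥ 1` -/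
noncomputable def trunc : List ℕ → ℕ → ℝ
  | [], _ => 1
  | s :: l, m => ∑ j ∈ Finset.Ico 1 m, trunc l j / (j : ℝ) ^ s

/-- the multiple zeta value `ζ(s_1, ..., s_r)`, `s_1` belongs to the largest variable -/
noncomputable def mzv : List ℕ → ℝ
  | [] => 1
  | s :: l => ∑' m : ℕ, trunc l (m + 1) / ((m + 1 : ℕ) : ℝ) ^ s

/-- `μ = 2πi` -/
noncomputable def mu : ℂ := 2 * π * Complex.I

/-- `φ = ζ(3)` -/
noncomputable def zeta3 : ℝ := ∑' n : ℕ, 1 / ((n : ℝ) + 1) ^ 3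

/-- the value of `P_0 + P_1 μ + P_2 μ² + P_3 μ³ + P_4 φ + P_5 μ φ` at `μ = 2πi`, `φ = ζ(3)` -/
noncomputable def value (P : Fin 6 → ℤ) : ℂ :=
  P 0 + P 1 * mu + P 2 * mu ^ 2 + P 3 * mu ^ 3 + P 4 * zeta3 + P 5 * (mu * zeta3)

lemma trunc_eq (w : List ℕ) : ∀ m, trunc w m = Pool.Agent.NH24.GD.trunc w m := by
  induction w with
  | nil =>
    intro m
    rw [trunc, Pool.Agent.NH24.GD.trunc]
  | cons s w ih =>
    intro m
    rw [trunc, Pool.Agent.NH24.GD.trunc]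
    exact Finset.sum_congr rfl fun j _ => by rw [ih]

lemma mzv_eq (w : List ℕ) : mzv w = Pool.Agent.NH24.GD.mzv w := by
  cases w with
  | nil => rw [mzv, Pool.Agent.NH24.GD.mzv]
  | cons s w =>
    rw [mzv, Pool.Agent.NH24.GD.mzv]
    exact tsum_congr fun m => by rw [trunc_eq]

lemma mu_re : mu.re = 0 := by simp [mu]

lemma mu_im : mu.im = 2 * π := by simp [mu]

lemma value_parts (P : Fin 6 → ℤ) : (value P).re = (P 0 : ℝ) - 4 * π ^ 2 * P 2 + P 4 * zeta3 ∧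
    (value P).im = 2 * π * ((P 1 : ℝ) - 4 * π ^ 2 * P 3 + P 5 * zeta3) := by
  obtain ⟨q, hq⟩ : ∃ q : ℝ, q = -(4 * π ^ 2) := ⟨_, rfl⟩
  have h2 : mu ^ 2 = (q : ℂ) := by
    rw [mu, hq, mul_pow, mul_pow, Complex.I_sq]
    push_cast
    ring
  have h3 : mu ^ 3 = (q : ℂ) * mu := by rw [pow_succ, h2]
  rw [value, h2, h3]
  constructor
  · simp [mu_re, mu_im]
    rw [hq]
    ring
  · simp [mu_re, mu_im]
    rw [hq]
    ring

/-- the three real numbers -/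
noncomputable def th : Fin 3 → ℝ := ![1, Pool.Agent.H337R2.zr 2, Pool.Agent.H337R2.zr 3]

lemma measure : ∃ c : ℝ, 0 < c ∧ Pool.Agent.NH24.GD.Measure th c 227 := by
  obtain ⟨c, hc, h⟩ := Pool.Agent.TH120.HM.measure_all
  refine ⟨c, hc, fun P hP H hH hPH => ?_⟩
  have h1 := h (P 0) (P 1) (P 2) H hH (by
    rintro ⟨h0, h1, h2⟩
    apply hP
    funext i
    fin_cases i
    · exact h0
    · exact h1
    · exact h2) (hPH 1) (hPH 2)
  have e1 : ∑ i, (P i : ℝ) * th i = (P 0 : ℝ) + P 1 * Pool.Agent.H337R2.zr 2 +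
      P 2 * Pool.Agent.H337R2.zr 3 := by
    simp [Fin.sum_univ_succ, th]
    ring
  have e2 : H ^ (-227 : ℝ) = (H ^ 227)⁻¹ := by
    rw [Real.rpow_neg (by linarith)]
    congr 1
    rw [← Real.rpow_natCast]
    norm_num
  rw [e1, div_eq_mul_inv, ← e2]
  exact h1

/-- the real and the imaginary part of a value -/
lemma part (a b d : ℤ) : ∑ i, ((![a, -24 * b, d] : Fin 3 → ℤ) i : ℝ) * th i =
    (a : ℝ) - 4 * π ^ 2 * b + d * zeta3 := by
  have h3 : Pool.Agent.H337R2.zr 3 = zeta3 := rfl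
  simp [Fin.sum_univ_succ, th]
  rw [Pool.Agent.LZ.Z2_value, h3]
  ring

/-- Let `b ≥ 2`, `t, γ > 0`, `(b - 1) t + γ < 1`, `(b - 1) t < b ε` and `D ≥ 0`. For all large `k`, all finite
sets `S` of indices of weight `k` such that for every argument `x` of an index in `S` there is an integer
`a ≥ 1` with `|b x - a k| ≤ k ^ t`, all integers `P_{w, 0}, ..., P_{w, 5}` (`w ∈ S`), not all zero, of absolute
value at most `2 ^ (k ^ γ)`, and all integers `m`, `|m| ≤ D k`: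
`|μ ^ m ∑_{w ∈ S} (P_{w, 0} + P_{w, 1} μ + P_{w, 2} μ² + P_{w, 3} μ³ + P_{w, 4} φ + P_{w, 5} μ φ) ζ(w)| > k ^ (-ε k)`
with `μ = 2πi`, `φ = ζ(3)`. -/
theorem result (b : ℕ) (hb : 2 ≤ b) (t γ ε D : ℝ) (ht : 0 < t) (hγ : 0 < γ)
    (h : ((b : ℝ) - 1) * t + γ < 1) (hε : ((b : ℝ) - 1) * t < b * ε) :
    ∃ k0 : ℕ, ∀ k : ℕ, k0 ≤ k → ∀ S : Finset (List ℕ),
      (∀ w ∈ S, w.sum = k ∧ ∀ x ∈ w, ∃ a : ℕ, 1 ≤ a ∧ |(b : ℝ) * x - a * k| ≤ (k : ℝ) ^ t) →
      ∀ P : List ℕ → Fin 6 → ℤ, (∃ w ∈ S, P w ≠ 0) →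
      (∀ w ∈ S, ∀ i, |(P w i : ℝ)| ≤ (2 : ℝ) ^ ((k : ℝ) ^ γ)) → ∀ m : ℤ, |(m : ℝ)| ≤ D * k →
      ((k : ℝ) ^ (ε * k))⁻¹ < ‖mu ^ m * ∑ w ∈ S, value (P w) * mzv w‖ := by
  obtain ⟨c0, hc0, hmeas⟩ := measure
  have hb0 : (0 : ℝ) < b := by
    have : (2 : ℝ) ≤ b := by exact_mod_cast hb
    linarith
  obtain ⟨γ', hγ1, hγ2⟩ : ∃ γ', γ < γ' ∧ γ' < 1 - ((b : ℝ) - 1) * t := exists_between (by linarith)
  obtain ⟨ε', hε1, hε2⟩ : ∃ ε', ((b : ℝ) - 1) * t / b < ε' ∧ ε' < ε :=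
    exists_between (by rw [div_lt_iff₀ hb0]; linarith)
  have hε1' : ((b : ℝ) - 1) * t < b * ε' := by
    rw [div_lt_iff₀ hb0] at hε1
    linarith
  obtain ⟨k1, h1⟩ := Pool.Agent.NH24.GD.general hc0 hmeas hb ht (by linarith : (0 : ℝ) < γ')
    (by linarith) hε1'
  -- 24 · 2 ^ (k ^ γ) ≤ 2 ^ (k ^ γ')
  have ev1 : ∀ᶠ k : ℕ in Filter.atTop, (24 : ℝ) * (2 : ℝ) ^ ((k : ℝ) ^ γ) ≤ (2 : ℝ) ^ ((k : ℝ) ^ γ') := by
    have h2 : Filter.Tendsto (fun k : ℕ => ((k : ℝ) ^ (γ' - γ))) Filter.atTop Filter.atTop :=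
      (tendsto_rpow_atTop (by linarith)).comp tendsto_natCast_atTop_atTop
    filter_upwards [h2.eventually_ge_atTop 6, Filter.eventually_ge_atTop 1] with k hk hk1
    have hk0 : (0 : ℝ) < k := by exact_mod_cast hk1
    have h3 : (k : ℝ) ^ γ' = (k : ℝ) ^ γ * (k : ℝ) ^ (γ' - γ) := by
      rw [← Real.rpow_add hk0]
      congr 1
      ring
    have h4 : (1 : ℝ) ≤ (k : ℝ) ^ γ := Real.one_le_rpow (by exact_mod_cast hk1) hγ.le
    have h5 : (k : ℝ) ^ γ + 5 ≤ (k : ℝ) ^ γ' := by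
      rw [h3]
      nlinarith
    calc (24 : ℝ) * (2 : ℝ) ^ ((k : ℝ) ^ γ) ≤ 2 ^ (5 : ℝ) * (2 : ℝ) ^ ((k : ℝ) ^ γ) := by
          have : (24 : ℝ) ≤ 2 ^ (5 : ℝ) := by norm_num
          exact mul_le_mul_of_nonneg_right this (by positivity)
      _ = (2 : ℝ) ^ ((k : ℝ) ^ γ + 5) := by
          rw [← Real.rpow_add (by norm_num)]
          congr 1
          ring
      _ ≤ _ := Real.rpow_le_rpow_of_exponent_le (by norm_num) h5
  -- the power of μ
  have hmu1 : (1 : ℝ) ≤ 2 * π := by linarith [Real.pi_gt_three]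
  have ev2 : ∀ᶠ k : ℕ in Filter.atTop, (2 * π) ^ (D * k) * ((k : ℝ) ^ (ε * k))⁻¹ ≤ ((k : ℝ) ^ (ε' * k))⁻¹ := by
    have h2 : Filter.Tendsto (fun k : ℕ => ((k : ℝ) ^ (ε - ε'))) Filter.atTop Filter.atTop :=
      (tendsto_rpow_atTop (by linarith)).comp tendsto_natCast_atTop_atTop
    filter_upwards [h2.eventually_ge_atTop ((2 * π) ^ D), Filter.eventually_ge_atTop 1] with k hk hk1
    have hk0 : (0 : ℝ) < k := by exact_mod_cast hk1
    have h3 : (2 * π) ^ (D * k) ≤ (k : ℝ) ^ ((ε - ε') * k) := by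
      rw [Real.rpow_mul (by positivity), Real.rpow_mul hk0.le]
      exact Real.rpow_le_rpow (by positivity) hk hk0.le
    have h4 : (k : ℝ) ^ (ε * k) = (k : ℝ) ^ ((ε - ε') * k) * (k : ℝ) ^ (ε' * k) := by
      rw [← Real.rpow_add hk0]
      congr 1
      ring
    rw [h4, mul_inv, ← mul_assoc]
    have h5 : (0 : ℝ) < (k : ℝ) ^ ((ε - ε') * k) := by positivity
    have h6 : (2 * π) ^ (D * k) * ((k : ℝ) ^ ((ε - ε') * k))⁻¹ ≤ 1 := by
      rw [← div_eq_mul_inv, div_le_one h5]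
      exact h3
    calc (2 * π) ^ (D * k) * ((k : ℝ) ^ ((ε - ε') * k))⁻¹ * ((k : ℝ) ^ (ε' * k))⁻¹
        ≤ 1 * ((k : ℝ) ^ (ε' * k))⁻¹ := mul_le_mul_of_nonneg_right h6 (by positivity)
      _ = _ := one_mul _
  obtain ⟨k2, h2⟩ := Filter.eventually_atTop.1 ev1
  obtain ⟨k3, h3⟩ := Filter.eventually_atTop.1 ev2
  refine ⟨max k1 (max k2 k3), fun k hk S hS P hP hPH m hm => ?_⟩
  have hkk1 : k1 ≤ k := le_trans (le_max_left _ _) hk
  have hkk2 : k2 ≤ k := le_trans (le_trans (le_max_left _ _) (le_max_right _ _)) hk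
  have hkk3 : k3 ≤ k := le_trans (le_trans (le_max_right _ _) (le_max_right _ _)) hk
  have hnear : Pool.Agent.NH24.GD.Near b k ⌊(k : ℝ) ^ t⌋₊ S := by
    intro w hw
    obtain ⟨g1, g2⟩ := hS w hw
    refine ⟨g1, fun x hx => ?_⟩
    obtain ⟨a, g3, g4⟩ := g2 x hx
    exact ⟨a, g3, Pool.Agent.NH24.GD.near_of (by positivity) g4⟩
  have hH := h2 k hkk2
  obtain ⟨H, hHdef⟩ : ∃ H, H = (2 : ℝ) ^ ((k : ℝ) ^ γ) := ⟨_, rfl⟩
  rw [← hHdef] at hH hPH
  have hH0 : 0 < H := by rw [hHdef]; positivity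
  -- a real form
  have key : ∀ p q r : Fin 6, (∃ w ∈ S, ¬ (P w p = 0 ∧ P w q = 0 ∧ P w r = 0)) →
      ((k : ℝ) ^ (ε' * k))⁻¹ < |∑ w ∈ S, ((P w p : ℝ) - 4 * π ^ 2 * P w q + P w r * zeta3) * mzv w| := by
    intro p q r hpqr
    have h4 := h1 k hkk1 S hnear (fun w => ![P w p, -24 * P w q, P w r]) (by
      obtain ⟨w, hw, h5⟩ := hpqr
      refine ⟨w, hw, fun h0 => h5 ?_⟩
      have g0 := congrFun h0 0
      have g1 := congrFun h0 1
      have g2 := congrFun h0 2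
      simp at g0 g1 g2
      exact ⟨g0, g1, g2⟩) (by
      intro w hw i
      refine le_trans ?_ hH
      fin_cases i
      · have := hPH w hw p
        simp
        linarith
      · have := hPH w hw q
        simp [abs_mul]
        linarith
      · have := hPH w hw r
        simp
        linarith)
    have h5 : ∑ w ∈ S, (∑ i, (((fun w => ![P w p, -24 * P w q, P w r]) w i : ℤ) : ℝ) * th i) *
        Pool.Agent.NH24.GD.mzv w =
        ∑ w ∈ S, ((P w p : ℝ) - 4 * π ^ 2 * P w q + P w r * zeta3) * mzv w := by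
      refine Finset.sum_congr rfl fun w _ => ?_
      rw [mzv_eq, ← part]
    rw [h5] at h4
    exact h4
  -- the norm of the sum
  have hre : (∑ w ∈ S, value (P w) * mzv w).re =
      ∑ w ∈ S, ((P w 0 : ℝ) - 4 * π ^ 2 * P w 2 + P w 4 * zeta3) * mzv w := by
    rw [Complex.re_sum]
    refine Finset.sum_congr rfl fun w _ => ?_
    rw [Complex.re_mul_ofReal, (value_parts (P w)).1]
  have him : (∑ w ∈ S, value (P w) * mzv w).im =
      2 * π * ∑ w ∈ S, ((P w 1 : ℝ) - 4 * π ^ 2 * P w 3 + P w 5 * zeta3) * mzv w := by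
    rw [Complex.im_sum, Finset.mul_sum]
    refine Finset.sum_congr rfl fun w _ => ?_
    rw [Complex.im_mul_ofReal, (value_parts (P w)).2]
    ring
  have hnorm : ((k : ℝ) ^ (ε' * k))⁻¹ < ‖∑ w ∈ S, value (P w) * mzv w‖ := by
    by_cases h0 : ∃ w ∈ S, ¬ (P w 0 = 0 ∧ P w 2 = 0 ∧ P w 4 = 0)
    · refine lt_of_lt_of_le (key 0 2 4 h0) ?_
      rw [← hre]
      exact Complex.abs_re_le_norm _
    · push Not at h0
      have h4 : ∃ w ∈ S, ¬ (P w 1 = 0 ∧ P w 3 = 0 ∧ P w 5 = 0) := by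
        obtain ⟨w, hw, hPw⟩ := hP
        refine ⟨w, hw, ?_⟩
        rintro ⟨g1, g3, g5⟩
        apply hPw
        obtain ⟨g0, g2, g4⟩ := h0 w hw
        funext i
        fin_cases i
        · exact g0
        · exact g1
        · exact g2
        · exact g3
        · exact g4
        · exact g5
      have h5 := key 1 3 5 h4
      have h6 := Complex.abs_im_le_norm (∑ w ∈ S, value (P w) * mzv w)
      rw [him, abs_mul, abs_of_pos (by positivity : (0 : ℝ) < 2 * π)] at h6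
      have h7 := abs_nonneg (∑ w ∈ S, ((P w 1 : ℝ) - 4 * π ^ 2 * P w 3 + P w 5 * zeta3) * mzv w)
      nlinarith
  -- the power of μ
  have hmun : ‖mu‖ = 2 * π := by
    rw [mu, norm_mul, norm_mul, Complex.norm_I, mul_one, Complex.norm_ofNat, Complex.norm_real,
      Real.norm_eq_abs, abs_of_pos Real.pi_pos]
  have hmum : ((2 * π) ^ (D * k))⁻¹ ≤ ‖mu ^ m‖ := by
    rw [norm_zpow, hmun, ← Real.rpow_intCast, ← Real.rpow_neg (by positivity)]
    refine Real.rpow_le_rpow_of_exponent_le hmu1 ?_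
    have := neg_abs_le (m : ℝ)
    linarith
  rw [norm_mul]
  have hpos : (0 : ℝ) < (2 * π) ^ (D * k) := by positivity
  have h4 := h3 k hkk3
  calc ((k : ℝ) ^ (ε * k))⁻¹ = ((2 * π) ^ (D * k))⁻¹ * ((2 * π) ^ (D * k) * ((k : ℝ) ^ (ε * k))⁻¹) := by
        rw [← mul_assoc, inv_mul_cancel₀ hpos.ne', one_mul]
    _ ≤ ((2 * π) ^ (D * k))⁻¹ * ((k : ℝ) ^ (ε' * k))⁻¹ := mul_le_mul_of_nonneg_left h4 (by positivity)
    _ < ((2 * π) ^ (D * k))⁻¹ * ‖∑ w ∈ S, value (P w) * mzv w‖ := mul_lt_mul_of_pos_left hnorm (by positivity)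
    _ ≤ ‖mu ^ m‖ * ‖∑ w ∈ S, value (P w) * mzv w‖ := mul_le_mul_of_nonneg_right hmum (norm_nonneg _)

end Pool.Agent.Results.MP_807c24_nt.NearMultiplesDegreeThree
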