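import Mathlib
import Pool.Agent.NH24.OL.Fin2
import Pool.Agent.NH24.OL.Ind

/-!
# The KZ associator: relations between coefficients with one large argument

The indices `(n + j, w)`, `0 ≤ j ≤ J`, where `w` is any word of weight at most `Q` and length at most `d`; there
are `(J + 1) 2 ^ Q` of them if `d ≥ Q`. Relations `μ ^ m ∑_(i ≤ E) μ ^ i f_i = 0`, `μ = 2πi`, where the `f_i` are
integral linear forms in the values `ζ(n + j, w)` with coefficients of absolute value at most `2 ^ (n ^ γ)` and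
`E ≤ c log n`: all coefficients are zero.
-/

set_option autoImplicit false

namespace Pool.Agent.Results.MP_807c24_nt.OneLargeArgument

open Real

/-- `trunc [s_1, ..., s_r] m` is the sum of `∏ n_i ^ (-s_i)` over `m > n_1 > ... > n_r ≥ 1` -/
noncomputable def trunc : List ℕ → ℕ → ℝ
  | [], _ => 1
  | s :: l, m => ∑ j ∈ Finset.Ico 1 m, trunc l j / (j : ℝ) ^ s

/-- the multiple zeta value `ζ(s_1, ..., s_r)`, `s_1` belongs to the largest variable -/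
noncomputable def mzv : List ℕ → ℝ
  | [] => 1
  | s :: l => ∑' m : ℕ, trunc l (m + 1) / ((m + 1 : ℕ) : ℝ) ^ s

/-- `μ = 2πi` -/
noncomputable def mu : ℂ := 2 * π * Complex.I

/-- admissible indices: `(s_1, ..., s_r)` with `r ≥ 1`, `s_1 ≥ 2` and all `s_i ≥ 1` -/
def AdmissibleIndex : List ℕ → Prop
  | [] => False
  | s :: l => 2 ≤ s ∧ ∀ t ∈ l, 1 ≤ t

/-- the number of arguments `≥ 2` -/
def height (w : List ℕ) : ℕ := w.countP (fun s => decide (2 ≤ s))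

lemma trunc_eq (w : List ℕ) : ∀ m, trunc w m = Pool.Agent.Y760.ZG.hr w m := by
  induction w with
  | nil => intro m; rw [trunc, Pool.Agent.Y760.ZG.hr_nil]
  | cons s w ih =>
    intro m
    rw [trunc, Pool.Agent.Y760.ZG.hr_cons]
    exact Finset.sum_congr rfl fun j _ => by rw [ih]

lemma mzv_eq : mzv = Pool.Agent.Y760.ZG.mz := by
  funext w
  cases w with
  | nil => rw [mzv, Pool.Agent.Y760.ZG.mz]
  | cons s w =>
    rw [mzv, Pool.Agent.Y760.ZG.mz]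
    exact tsum_congr fun m => by rw [trunc_eq]

lemma adm_small {u : List ℕ} (h : AdmissibleIndex u) :
    (∀ m ∈ u, 1 ≤ m) ∧ ∀ x ∈ u.head?, 2 ≤ x := by
  cases u with
  | nil => exact h.elim
  | cons s l =>
    refine ⟨fun m hm => ?_, fun x hx => ?_⟩
    · rcases List.mem_cons.1 hm with rfl | hm
      · exact le_trans (by norm_num) h.1
      · exact h.2 m hm
    · rw [List.head?_cons, Option.mem_def, Option.some.injEq] at hx
      rw [← hx]
      exact h.1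

lemma mu_re : mu.re = 0 := by simp [mu]

lemma mu_im : mu.im = 2 * π := by simp [mu]

lemma mu_sq : mu ^ 2 = ((-(4 * π ^ 2) : ℝ) : ℂ) := by
  rw [mu, mul_pow, mul_pow, Complex.I_sq]
  push_cast
  ring

lemma sum_two (y : ℕ → ℂ) : ∀ n, ∑ j ∈ Finset.range (2 * n), y j =
    ∑ i ∈ Finset.range n, (y (2 * i) + y (2 * i + 1)) := by
  intro n
  induction n with
  | zero => simp
  | succ n ih =>
    rw [show 2 * (n + 1) = 2 * n + 1 + 1 by ring, Finset.sum_range_succ, Finset.sum_range_succ, ih,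
      Finset.sum_range_succ, add_assoc]

/-- the real and the imaginary part of a polynomial in `μ` with real coefficients -/
lemma split_mu (x : ℕ → ℝ) (E : ℕ) (hx : ∀ j, E < j → x j = 0) :
    ∑ j ∈ Finset.range (E + 1), (x j : ℂ) * mu ^ j =
      ((∑ i : Fin (E + 1), Pool.Agent.NH83.EM.Th E i * x (2 * (i : ℕ)) : ℝ) : ℂ) +
      ((∑ i : Fin (E + 1), Pool.Agent.NH83.EM.Th E i * x (2 * (i : ℕ) + 1) : ℝ) : ℂ) * mu := by
  have h1 : ∑ j ∈ Finset.range (E + 1), (x j : ℂ) * mu ^ j = ∑ j ∈ Finset.range (2 * (E + 1)), (x j : ℂ) * mu ^ j := by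
    refine Finset.sum_subset (fun j hj => ?_) fun j _ hj => ?_
    · rw [Finset.mem_range] at hj ⊢
      omega
    · rw [Finset.mem_range] at hj
      rw [hx j (by omega)]
      simp
  rw [h1, sum_two]
  push_cast
  rw [Finset.sum_mul, ← Finset.sum_add_distrib, ← Fin.sum_univ_eq_sum_range
    (fun i => (x (2 * i) : ℂ) * mu ^ (2 * i) + (x (2 * i + 1) : ℂ) * mu ^ (2 * i + 1)) (E + 1)]
  refine Finset.sum_congr rfl fun i _ => ?_
  rw [pow_succ, pow_mul, mu_sq, Pool.Agent.NH83.EM.Th]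
  push_cast
  ring

/-- Let `0 < t < 1/2`, `t < ε`, `0 < γ < 1 - t`, `τ > 0`, and let `κ`, `K`, `B` be real. There is `c > 0` such that for
all large `n`, all `E ≤ c log n` and all `J`, `Q`, `d` such that `M = (J + 1) min (2 ^ Q, (Q + 1) ^ d)` satisfies
`M ≤ n ^ t` and `M ^ 2 Q ≤ n ^ (1 - τ)`, all finite sets `S` of pairs `(j, w)`, where `j ≤ J` and `w` is a word of
positive integers of sum at most `Q` and length at most `d`, all integers `q_(i,p)` (`i ≤ E`, `p ∈ S`) of absolute value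
at most `2 ^ (n ^ γ)`, all integers `m` with `|m| ≤ B n`, all finite sets `H` of admissible indices of weight at most
`κ n` with at least `ε n` arguments `≥ 2` and all complex `b_h` with `|b_h| ≤ K ^ n`: if
`|μ ^ m (∑_(i ≤ E) μ ^ i ∑_((j,w) ∈ S) q_(i,(j,w)) ζ(n + j, w) - ∑_H b_h ζ(h))| ≤ n ^ (-ε n)` (`μ = 2πi`), then all
`q_(i,p)` are zero. -/
theorem result (t γ τ ε κ K B : ℝ) (ht0 : 0 < t) (ht : t < 1 / 2) (hγ0 : 0 < γ) (hγ : γ + t < 1)
    (hτ : 0 < τ) (hε : t < ε) :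
    ∃ c : ℝ, 0 < c ∧ ∃ n0 : ℕ, ∀ n : ℕ, n0 ≤ n → ∀ E J Q d M : ℕ, (E : ℝ) ≤ c * Real.log n →
      M = (J + 1) * min (2 ^ Q) ((Q + 1) ^ d) → (M : ℝ) ≤ (n : ℝ) ^ t → (M : ℝ) ^ 2 * Q ≤ (n : ℝ) ^ (1 - τ) →
      ∀ S : Finset (ℕ × List ℕ),
      (∀ p ∈ S, p.1 ≤ J ∧ (∀ x ∈ p.2, 1 ≤ x) ∧ p.2.sum ≤ Q ∧ p.2.length ≤ d) →
      ∀ q : ℕ → ℕ × List ℕ → ℤ, (∀ i ≤ E, ∀ p ∈ S, |(q i p : ℝ)| ≤ (2 : ℝ) ^ ((n : ℝ) ^ γ)) →
      ∀ H : Finset (List ℕ), (∀ h ∈ H, AdmissibleIndex h ∧ (h.sum : ℝ) ≤ κ * n ∧ ε * n ≤ height h) →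
      ∀ b : List ℕ → ℂ, (∀ h ∈ H, ‖b h‖ ≤ K ^ n) → ∀ m : ℤ, |(m : ℝ)| ≤ B * n →
      ‖mu ^ m * (∑ i ∈ Finset.range (E + 1),
          ((∑ p ∈ S, (q i p : ℝ) * mzv ((n + p.1) :: p.2) : ℝ) : ℂ) * mu ^ i -
        ∑ h ∈ H, b h * mzv h)‖ ≤ ((n : ℝ) ^ (ε * n))⁻¹ →
      ∀ i ≤ E, ∀ p ∈ S, q i p = 0 := by
  classical
  rw [mzv_eq]
  obtain ⟨ε', hε'⟩ : ∃ ε', ε' = (t + ε) / 2 := ⟨_, rfl⟩
  have hε1 : t < ε' := by rw [hε']; linarith
  have hε2 : ε' < ε := by rw [hε']; linarith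
  obtain ⟨c, hc, N1, h1⟩ := Pool.Agent.NH24.OL.growE Pool.Agent.NH24.OL.t_ind t γ τ ε' κ K ht0 ht hγ0 hγ hτ hε1
  -- the power of μ
  have hmu1 : (1 : ℝ) ≤ 2 * π := by linarith [Real.pi_gt_three]
  have ev2 : ∀ᶠ k : ℕ in Filter.atTop, (2 * π) ^ (B * k) * ((k : ℝ) ^ (ε * k))⁻¹ ≤
      ((k : ℝ) ^ (ε' * k))⁻¹ := by
    have h2 : Filter.Tendsto (fun k : ℕ => ((k : ℝ) ^ (ε - ε'))) Filter.atTop Filter.atTop :=
      (tendsto_rpow_atTop (by linarith)).comp tendsto_natCast_atTop_atTop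
    filter_upwards [h2.eventually_ge_atTop ((2 * π) ^ B), Filter.eventually_ge_atTop 1] with k hk hk1
    have hk0 : (0 : ℝ) < k := by exact_mod_cast hk1
    have h3 : (2 * π) ^ (B * k) ≤ (k : ℝ) ^ ((ε - ε') * k) := by
      rw [Real.rpow_mul (by positivity), Real.rpow_mul hk0.le]
      exact Real.rpow_le_rpow (by positivity) hk hk0.le
    have h4 : (k : ℝ) ^ (ε * k) = (k : ℝ) ^ ((ε - ε') * k) * (k : ℝ) ^ (ε' * k) := by
      rw [← Real.rpow_add hk0]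
      congr 1
      ring
    rw [h4, mul_inv, ← mul_assoc]
    have h5 : (0 : ℝ) < (k : ℝ) ^ ((ε - ε') * k) := by positivity
    have h6 : (2 * π) ^ (B * k) * ((k : ℝ) ^ ((ε - ε') * k))⁻¹ ≤ 1 := by
      rw [← div_eq_mul_inv, div_le_one h5]
      exact h3
    calc (2 * π) ^ (B * k) * ((k : ℝ) ^ ((ε - ε') * k))⁻¹ * ((k : ℝ) ^ (ε' * k))⁻¹
        ≤ 1 * ((k : ℝ) ^ (ε' * k))⁻¹ := mul_le_mul_of_nonneg_right h6 (by positivity)
      _ = _ := one_mul _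
  obtain ⟨N2, h2⟩ := Filter.eventually_atTop.1 ev2
  refine ⟨c, hc, max (max N1 N2) 1, fun n hn E J Q d M hE hM hMt hMQ S hS q hq H hH b hb m hm hs => ?_⟩
  have hn1 : (1 : ℝ) ≤ n := by
    have : 1 ≤ n := by omega
    exact_mod_cast this
  have hn0 : (0 : ℝ) < n := by linarith
  have hbase : ∀ h ∈ H, (∀ m ∈ h, 1 ≤ m) ∧ (∀ x ∈ h.head?, 2 ≤ x) ∧ (h.sum : ℝ) ≤ κ * n ∧
      ε' * n ≤ Pool.Agent.Y777.AM.ht h := by
    intro h hh
    refine ⟨(adm_small (hH h hh).1).1, (adm_small (hH h hh).1).2, (hH h hh).2.1, ?_⟩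
    have h3 : ε * n ≤ Pool.Agent.Y777.AM.ht h := (hH h hh).2.2
    have h4 : ε' * n ≤ ε * n := by nlinarith
    linarith
  -- the coefficients, zero from `E + 1` on
  obtain ⟨F, hF⟩ : ∃ F : ℕ → ℕ × List ℕ → ℤ, F = fun i p => if i ≤ E then q i p else 0 := ⟨_, rfl⟩
  have hFq : ∀ i ≤ E, ∀ p, F i p = q i p := by
    intro i hi p
    rw [hF]
    exact if_pos hi
  have hF0 : ∀ i, E < i → ∀ p, F i p = 0 := by
    intro i hi p
    rw [hF]
    exact if_neg (by omega)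
  have hFC : ∀ i, ∀ p ∈ S, |(F i p : ℝ)| ≤ (2 : ℝ) ^ ((n : ℝ) ^ γ) := by
    intro i p hp
    by_cases hi : i ≤ E
    · rw [hFq i hi]
      exact hq i hi p hp
    · rw [hF0 i (by omega), Int.cast_zero, abs_zero]
      positivity
  obtain ⟨x, hx⟩ : ∃ x : ℕ → ℝ, x = fun i => ∑ p ∈ S, (F i p : ℝ) *
    Pool.Agent.Y760.ZG.mz ((n + p.1) :: p.2) := ⟨_, rfl⟩
  have hx0 : ∀ i, E < i → x i = 0 := by
    intro i hi
    rw [hx]
    exact Finset.sum_eq_zero fun p _ => by rw [hF0 i hi, Int.cast_zero, zero_mul]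
  have hxf : ∀ i ∈ Finset.range (E + 1), ((∑ p ∈ S, (q i p : ℝ) *
      Pool.Agent.Y760.ZG.mz ((n + p.1) :: p.2) : ℝ) : ℂ) * mu ^ i = (x i : ℂ) * mu ^ i := by
    intro i hi
    rw [Finset.mem_range] at hi
    rw [hx]
    congr 2
    exact Finset.sum_congr rfl fun p _ => by rw [hFq i (by omega)]
  rw [Finset.sum_congr rfl hxf, split_mu x E hx0] at hs
  -- the difference without the power of μ
  obtain ⟨R, hR⟩ : ∃ R : ℝ, R = ∑ i : Fin (E + 1), Pool.Agent.NH83.EM.Th E i * x (2 * (i : ℕ)) := ⟨_, rfl⟩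
  obtain ⟨I, hI⟩ : ∃ I : ℝ, I = ∑ i : Fin (E + 1), Pool.Agent.NH83.EM.Th E i * x (2 * (i : ℕ) + 1) := ⟨_, rfl⟩
  obtain ⟨V, hV⟩ : ∃ V : ℂ, V = (R : ℂ) + (I : ℂ) * mu - ∑ h ∈ H, b h * Pool.Agent.Y760.ZG.mz h := ⟨_, rfl⟩
  rw [← hR, ← hI, ← hV] at hs
  have hmun : ‖mu‖ = 2 * π := by
    rw [mu, norm_mul, norm_mul, Complex.norm_I, mul_one, Complex.norm_ofNat, Complex.norm_real,
      Real.norm_eq_abs, abs_of_pos Real.pi_pos]
  have hVs : ‖V‖ ≤ ((n : ℝ) ^ (ε' * n))⁻¹ := by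
    have hmum : ((2 * π) ^ (B * n))⁻¹ ≤ ‖mu ^ m‖ := by
      rw [norm_zpow, hmun, ← Real.rpow_intCast, ← Real.rpow_neg (by positivity)]
      refine Real.rpow_le_rpow_of_exponent_le hmu1 ?_
      have := neg_abs_le (m : ℝ)
      linarith
    rw [norm_mul] at hs
    have hpos : (0 : ℝ) < (2 * π) ^ (B * n) := by positivity
    have h3 : ((2 * π) ^ (B * n))⁻¹ * ‖V‖ ≤ ((n : ℝ) ^ (ε * n))⁻¹ :=
      le_trans (mul_le_mul_of_nonneg_right hmum (norm_nonneg _)) hs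
    calc ‖V‖ = (2 * π) ^ (B * n) * (((2 * π) ^ (B * n))⁻¹ * ‖V‖) := by
          rw [← mul_assoc, mul_inv_cancel₀ hpos.ne', one_mul]
      _ ≤ (2 * π) ^ (B * n) * ((n : ℝ) ^ (ε * n))⁻¹ := mul_le_mul_of_nonneg_left h3 hpos.le
      _ ≤ _ := h2 n (by omega)
  have hre : V.re = R - ∑ h ∈ H, (b h).re * Pool.Agent.Y760.ZG.mz h := by
    rw [hV, Complex.sub_re, Complex.add_re, Complex.ofReal_re, Complex.re_ofReal_mul, mu_re, mul_zero, add_zero,
      Complex.re_sum]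
    congr 1
    exact Finset.sum_congr rfl fun h _ => by rw [Complex.re_mul_ofReal]
  have him : V.im = 2 * π * (I - ∑ h ∈ H, ((b h).im / (2 * π)) * Pool.Agent.Y760.ZG.mz h) := by
    rw [hV, Complex.sub_im, Complex.add_im, Complex.ofReal_im, Complex.im_ofReal_mul, mu_im, zero_add,
      Complex.im_sum, mul_sub, Finset.mul_sum]
    congr 1
    · ring
    · refine Finset.sum_congr rfl fun h _ => ?_
      rw [Complex.im_mul_ofReal]
      field_simp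
  -- the real form
  have key : ∀ s : ℕ, ∀ b' : List ℕ → ℝ, (∀ h ∈ H, |b' h| ≤ K ^ n) →
      |∑ i : Fin (E + 1), Pool.Agent.NH83.EM.Th E i * x (2 * (i : ℕ) + s) -
      ∑ h ∈ H, b' h * Pool.Agent.Y760.ZG.mz h| ≤ ((n : ℝ) ^ (ε' * n))⁻¹ →
      ∀ i : Fin (E + 1), ∀ p ∈ S, F (2 * (i : ℕ) + s) p = 0 := by
    intro s b' hb' hs' i p hp
    by_contra hne
    have h3 := h1 n (by omega) E hE J Q d M hM hMt hMQ S hS (fun p i => F (2 * (i : ℕ) + s) p)
      (fun p hp i => hFC _ p hp) ⟨p, hp, fun h => hne (congrFun h i)⟩ H hbase b' hb'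
    have h4 : ∑ p ∈ S, (∑ i : Fin (E + 1), ((F (2 * (i : ℕ) + s) p : ℤ) : ℝ) * Pool.Agent.NH83.EM.Th E i) *
        Pool.Agent.Y760.ZG.mz ((n + p.1) :: p.2) =
        ∑ i : Fin (E + 1), Pool.Agent.NH83.EM.Th E i * x (2 * (i : ℕ) + s) := by
      rw [hx]
      simp only [Finset.sum_mul, Finset.mul_sum]
      rw [Finset.sum_comm]
      refine Finset.sum_congr rfl fun i _ => Finset.sum_congr rfl fun p _ => ?_
      ring
    rw [h4] at h3
    linarith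
  have k1 := key 0 (fun h => (b h).re) (fun h hh => (Complex.abs_re_le_norm _).trans (hb h hh)) (by
    simp only [add_zero]
    rw [← hR, ← hre]
    exact (Complex.abs_re_le_norm _).trans hVs)
  have k2 := key 1 (fun h => (b h).im / (2 * π)) (fun h hh => by
    rw [abs_div, abs_of_pos (by positivity : (0 : ℝ) < 2 * π)]
    exact (div_le_self (abs_nonneg _) hmu1).trans ((Complex.abs_im_le_norm _).trans (hb h hh))) (by
    rw [← hI]
    have h3 := (Complex.abs_im_le_norm _).trans hVs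
    rw [him, abs_mul, abs_of_pos (by positivity : (0 : ℝ) < 2 * π)] at h3
    refine le_trans (le_mul_of_one_le_left (abs_nonneg _) hmu1) h3)
  intro j hj p hp
  rw [← hFq j hj]
  rcases Nat.even_or_odd' j with ⟨i, hi | hi⟩
  · have h3 := k1 ⟨i, by omega⟩ p hp
    simp only [add_zero] at h3
    rw [hi]
    exact h3
  · have h3 := k2 ⟨i, by omega⟩ p hp
    rw [hi]
    exact h3

end Pool.Agent.Results.MP_807c24_nt.OneLargeArgument
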