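import Mathlib
import Pool.Agent.NH24.DM.PMain

/-!
# The KZ associator: relations on boundedly many lines

Relations `μ ^ m (f_0 + μ f_1) = 0`, `μ = 2πi`, where `f_0` and `f_1` are polynomials of weight `k` in the multiple
zeta values with bounded integer coefficients, whose monomials lie on boundedly many lines: in a line all arguments
of the monomial are affine functions `x + y t` of an integer `0 ≤ t ≤ c k` with bounded integral slopes `y`. The
lines have arbitrary positions, all arguments are at least `δ k`. Then `f_0 = 0` and `f_1 = 0` are consequences of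
the stuffle product.
-/

set_option autoImplicit false

namespace Pool.Agent.Results.MP_807c24_nt.RelationsOnLines

/-- `trunc [s_1, ..., s_r] m` is the sum of `∏ n_i ^ (-s_i)` over `m > n_1 > ... > n_r ≥ 1` -/
noncomputable def trunc : List ℕ → ℕ → ℝ
  | [], _ => 1
  | s :: l, m => ∑ j ∈ Finset.Ico 1 m, trunc l j / (j : ℝ) ^ s

/-- the multiple zeta value `ζ(s_1, ..., s_r)`, `s_1` belongs to the largest variable -/
noncomputable def mzv : List ℕ → ℝ
  | [] => 1
  | s :: l => ∑' m : ℕ, trunc l (m + 1) / ((m + 1 : ℕ) : ℝ) ^ s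

/-- `μ = 2πi` -/
noncomputable def mu : ℂ := 2 * Real.pi * Complex.I

/-- admissible indices: `(s_1, ..., s_r)` with `r ≥ 1`, `s_1 ≥ 2` and all `s_i ≥ 1` -/
def AdmissibleIndex : List ℕ → Prop
  | [] => False
  | s :: l => 2 ≤ s ∧ ∀ t ∈ l, 1 ≤ t

/-- the number of arguments `≥ 2` -/
def height (w : List ℕ) : ℕ := w.countP (fun s => decide (2 ≤ s))

/-- the list of the indices in the stuffle (series) product of two indices -/
def stuffles : List ℕ → List ℕ → List (List ℕ)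
  | [], l => [l]
  | i :: k, [] => [i :: k]
  | i :: k, j :: l => (stuffles k (j :: l)).map (i :: ·) ++ (stuffles (i :: k) l).map (j :: ·) ++
      (stuffles k l).map ((i + j) :: ·)
termination_by k l => k.length + l.length

/-- `Z` has the stuffle product: `Z(k) Z(l) = ∑ Z(m)` over the indices `m` of the stuffle product
of `k` and `l`, for all admissible indices `k` and `l` -/
def HasStuffleProduct {A : Type} [CommRing A] (Z : List ℕ → A) : Prop :=
  ∀ k l : List ℕ, AdmissibleIndex k → AdmissibleIndex l →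
    Z k * Z l = ((stuffles k l).map Z).sum

lemma trunc_eq (w : List ℕ) : ∀ m, trunc w m = Pool.Agent.Y760.ZG.hr w m := by
  induction w with
  | nil => intro m; rw [trunc, Pool.Agent.Y760.ZG.hr_nil]
  | cons s w ih =>
    intro m
    rw [trunc, Pool.Agent.Y760.ZG.hr_cons]
    exact Finset.sum_congr rfl fun j _ => by rw [ih]

lemma mzv_eq : mzv = Pool.Agent.Y760.ZG.mz := by
  funext w
  cases w with
  | nil => rw [mzv, Pool.Agent.Y760.ZG.mz]
  | cons s w =>
    rw [mzv, Pool.Agent.Y760.ZG.mz]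
    exact tsum_congr fun m => by rw [trunc_eq]

lemma adm_iff (u : List ℕ) : Pool.Agent.Y777.AM.St.Ad u ↔ AdmissibleIndex u := by
  cases u with
  | nil => exact Iff.rfl
  | cons s l => exact Iff.rfl

lemma adm_small {u : List ℕ} (h : AdmissibleIndex u) :
    (∀ m ∈ u, 1 ≤ m) ∧ ∀ x ∈ u.head?, 2 ≤ x := by
  cases u with
  | nil => exact h.elim
  | cons s l =>
    refine ⟨fun m hm => ?_, fun x hx => ?_⟩
    · rcases List.mem_cons.1 hm with rfl | hm
      · exact le_trans (by norm_num) h.1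
      · exact h.2 m hm
    · rw [List.head?_cons, Option.mem_def, Option.some.injEq] at hx
      rw [← hx]
      exact h.1

lemma stuffles_eq (u v : List ℕ) : stuffles u v = Pool.Agent.Y760.ZF.sti u v := by
  induction u, v using Pool.Agent.Y760.ZF.sti.induct with
  | case1 v => rw [stuffles, Pool.Agent.Y760.ZF.sti]
  | case2 x u => rw [stuffles, Pool.Agent.Y760.ZF.sti]
  | case3 x u y v ih1 ih2 ih3 => rw [stuffles, Pool.Agent.Y760.ZF.sti, ih1, ih2, ih3]

lemma mu_norm : ‖mu‖ = 2 * Real.pi := by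
  rw [mu, norm_mul, norm_mul, Complex.norm_I, mul_one, Complex.norm_ofNat, Complex.norm_real,
    Real.norm_eq_abs, abs_of_pos Real.pi_pos]

/-- Let `δ, ε > 0`, let `H`, `κ`, `K`, `M` be real and `s`, `D` natural numbers. There are `c > 0` and `B > 1` such
that for all large `k`, all monomials `F_i` (`i < s`), lists of nonempty words with letters `(x, y)`, `|y| ≤ D`, all
finite sets `I_i` of natural numbers `t ≤ c k` and all integers `a_(j,i,t)` (`j = 0, 1`) with `|a_(j,i,t)| ≤ H` such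
that, for `t ∈ I_i`, the product `L_(i,t)` of words obtained from `F_i` by the substitution of `x + y t` for the
letters `(x, y)` has weight `k` and all arguments `≥ δ k`: put `f_j(Z) = ∑_i ∑_(t ∈ I_i) a_(j,i,t) ∏_(w ∈ L_(i,t)) Z(w)`.
If `|μ ^ m (f_0(ζ) + μ f_1(ζ) - ∑_(h ∈ G) b_h ζ(h))| ≤ B ^ (-k)` for an integer `m` with `|m| ≤ M k`, a finite set
`G` of admissible indices of weight at most `κ k` with at least `ε k` arguments `≥ 2` and complex `b_h` with
`|b_h| ≤ K ^ k`, then for `j = 0, 1`: `f_j(ζ) = 0`, and `f_j(Z) = 0` for all commutative rings `A` and all functions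
`Z` from the indices to `A` that have the stuffle product. -/
theorem result (δ H ε κ K M : ℝ) (hδ : 0 < δ) (hε : 0 < ε) (s D : ℕ) :
    ∃ c B : ℝ, 0 < c ∧ 1 < B ∧ ∃ k0 : ℕ, ∀ k : ℕ, k0 ≤ k →
      ∀ (F : Fin s → List (List (ℤ × ℤ))) (I : Fin s → Finset ℕ) (L : Fin s → ℕ → List (List ℕ))
        (a : Fin 2 → Fin s → ℕ → ℤ),
      (∀ i, ∀ w ∈ F i, w ≠ [] ∧ ∀ z ∈ w, |z.2| ≤ (D : ℤ)) →
      (∀ i, ∀ t ∈ I i, (t : ℝ) ≤ c * k ∧
        (L i t).map (List.map fun x : ℕ => (x : ℤ)) = (F i).map (List.map fun z => z.1 + z.2 * (t : ℤ)) ∧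
        ((L i t).map List.sum).sum = k ∧ (∀ w ∈ L i t, ∀ x ∈ w, δ * k ≤ (x : ℝ)) ∧
        ∀ j, |(a j i t : ℝ)| ≤ H) →
      ∀ G : Finset (List ℕ),
      (∀ h ∈ G, AdmissibleIndex h ∧ (h.sum : ℝ) ≤ κ * k ∧ ε * k ≤ height h) →
      ∀ b : List ℕ → ℂ, (∀ h ∈ G, ‖b h‖ ≤ K ^ k) → ∀ m : ℤ, |(m : ℝ)| ≤ M * k →
      ‖mu ^ m * ((∑ i, ∑ t ∈ I i, (a 0 i t : ℂ) * ((L i t).map fun w => (mzv w : ℂ)).prod) +
        mu * (∑ i, ∑ t ∈ I i, (a 1 i t : ℂ) * ((L i t).map fun w => (mzv w : ℂ)).prod) -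
        ∑ h ∈ G, b h * mzv h)‖ ≤ (B ^ k)⁻¹ →
      ∀ j, ∑ i, ∑ t ∈ I i, (a j i t : ℝ) * ((L i t).map mzv).prod = 0 ∧
        ∀ (A : Type) [CommRing A] (Z : List ℕ → A), HasStuffleProduct Z →
          ∑ i, ∑ t ∈ I i, (a j i t : A) * ((L i t).map Z).prod = 0 := by
  rw [mzv_eq]
  obtain ⟨c, B, hc, hB, k0, h0⟩ := Pool.Agent.NH24.DM.lines_thm δ H κ K ε hδ hε s D
  have hmu1 : (1 : ℝ) < 2 * Real.pi := by linarith [Real.pi_gt_three]
  have hmu0 : (0 : ℝ) < 2 * Real.pi := by linarith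
  obtain ⟨M1, hM1⟩ : ∃ M1 : ℕ, M ≤ M1 := exists_nat_ge M
  refine ⟨c, B * (2 * Real.pi) ^ (M1 + 1), hc, ?_, k0, fun k hk F I L a hF hI G hG b hb m hm hs => ?_⟩
  · have : (1 : ℝ) ≤ (2 * Real.pi) ^ (M1 + 1) := one_le_pow₀ hmu1.le
    nlinarith
  -- the two real numbers
  obtain ⟨f, hf⟩ : ∃ f : Fin 2 → ℝ, f = fun j => ∑ i, ∑ t ∈ I i,
    (a j i t : ℝ) * ((L i t).map Pool.Agent.Y760.ZG.mz).prod := ⟨_, rfl⟩
  have hcast : ∀ j, (∑ i, ∑ t ∈ I i, (a j i t : ℂ) *
      ((L i t).map fun w => (Pool.Agent.Y760.ZG.mz w : ℂ)).prod) = (f j : ℂ) := by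
    intro j
    rw [hf, Complex.ofReal_sum]
    refine Finset.sum_congr rfl fun i _ => ?_
    rw [Complex.ofReal_sum]
    refine Finset.sum_congr rfl fun t _ => ?_
    rw [Complex.ofReal_mul, Complex.ofReal_intCast]
    congr 1
    have h1 : ∀ l : List (List ℕ), (l.map fun w => (Pool.Agent.Y760.ZG.mz w : ℂ)).prod =
        (((l.map Pool.Agent.Y760.ZG.mz).prod : ℝ) : ℂ) := by
      intro l
      induction l with
      | nil => simp
      | cons w l ih => simp only [List.map_cons, List.prod_cons, ih, Complex.ofReal_mul]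
    exact h1 _
  rw [hcast, hcast] at hs
  obtain ⟨V, hV⟩ : ∃ V : ℂ, V = (f 0 : ℂ) + mu * (f 1 : ℂ) -
    ∑ h ∈ G, b h * Pool.Agent.Y760.ZG.mz h := ⟨_, rfl⟩
  rw [← hV] at hs
  have hVs : ‖V‖ ≤ (B ^ k)⁻¹ * (2 * Real.pi)⁻¹ ^ k := by
    have hmum : ((2 * Real.pi) ^ (M1 * k))⁻¹ ≤ ‖mu ^ m‖ := by
      rw [norm_zpow, mu_norm]
      have h1 : (2 * Real.pi) ^ (-((M1 * k : ℕ) : ℤ)) ≤ (2 * Real.pi) ^ m := by
        refine zpow_le_zpow_right₀ hmu1.le ?_
        have h2 : (m : ℝ) ≥ -((M1 * k : ℕ) : ℝ) := by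
          have h3 := neg_abs_le (m : ℝ)
          have h4 : M * k ≤ M1 * k := mul_le_mul_of_nonneg_right hM1 (Nat.cast_nonneg k)
          push_cast
          linarith
        exact_mod_cast h2
      rwa [zpow_neg, zpow_natCast] at h1
    rw [norm_mul] at hs
    have hpos : (0 : ℝ) < (2 * Real.pi) ^ (M1 * k) := by positivity
    have h3 : ((2 * Real.pi) ^ (M1 * k))⁻¹ * ‖V‖ ≤ ((B * (2 * Real.pi) ^ (M1 + 1)) ^ k)⁻¹ :=
      le_trans (mul_le_mul_of_nonneg_right hmum (norm_nonneg _)) hs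
    calc ‖V‖ = (2 * Real.pi) ^ (M1 * k) * (((2 * Real.pi) ^ (M1 * k))⁻¹ * ‖V‖) := by
          rw [← mul_assoc, mul_inv_cancel₀ hpos.ne', one_mul]
      _ ≤ (2 * Real.pi) ^ (M1 * k) * ((B * (2 * Real.pi) ^ (M1 + 1)) ^ k)⁻¹ :=
          mul_le_mul_of_nonneg_left h3 hpos.le
      _ = _ := by
          have hB0 : B ≠ 0 := by linarith
          generalize 2 * Real.pi = u at hmu0
          have hu0 : u ≠ 0 := hmu0.ne'
          have h4 : (B * u ^ (M1 + 1)) ^ k = B ^ k * (u ^ (M1 * k) * u ^ k) := by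
            rw [mul_pow, ← pow_mul, Nat.add_mul, one_mul, pow_add]
          rw [h4, mul_inv, mul_inv, inv_pow]
          have h5 : u ^ (M1 * k) ≠ 0 := pow_ne_zero _ hu0
          calc u ^ (M1 * k) * ((B ^ k)⁻¹ * ((u ^ (M1 * k))⁻¹ * (u ^ k)⁻¹))
              = (u ^ (M1 * k) * (u ^ (M1 * k))⁻¹) * ((B ^ k)⁻¹ * (u ^ k)⁻¹) := by ring
            _ = (B ^ k)⁻¹ * (u ^ k)⁻¹ := by rw [mul_inv_cancel₀ h5, one_mul]
  have hle1 : (2 * Real.pi)⁻¹ ^ k ≤ 1 := pow_le_one₀ (by positivity) (inv_le_one_of_one_le₀ hmu1.le)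
  have hBk : (0 : ℝ) < (B ^ k)⁻¹ := by positivity
  have hV1 : ‖V‖ ≤ (B ^ k)⁻¹ := hVs.trans (by nlinarith)
  have hmre : mu.re = 0 := by simp [mu]
  have hmim : mu.im = 2 * Real.pi := by simp [mu]
  have hre : V.re = f 0 - ∑ h ∈ G, (b h).re * Pool.Agent.Y760.ZG.mz h := by
    rw [hV, Complex.sub_re, Complex.add_re, Complex.re_mul_ofReal, hmre, zero_mul, add_zero,
      Complex.ofReal_re, Complex.re_sum]
    congr 1
    exact Finset.sum_congr rfl fun h _ => by rw [Complex.re_mul_ofReal]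
  have him : V.im = 2 * Real.pi * (f 1 - ∑ h ∈ G, ((b h).im / (2 * Real.pi)) * Pool.Agent.Y760.ZG.mz h) := by
    rw [hV, Complex.sub_im, Complex.add_im, Complex.im_mul_ofReal, hmim, Complex.ofReal_im, zero_add,
      Complex.im_sum, mul_sub, Finset.mul_sum]
    congr 1
    refine Finset.sum_congr rfl fun h _ => ?_
    rw [Complex.im_mul_ofReal]
    field_simp
  have key : ∀ j : Fin 2, ∀ b' : List ℕ → ℝ, (∀ h ∈ G, |b' h| ≤ K ^ k) →
      |f j - ∑ h ∈ G, b' h * Pool.Agent.Y760.ZG.mz h| ≤ (B ^ k)⁻¹ →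
      ∑ i, ∑ t ∈ I i, (a j i t : ℝ) * ((L i t).map Pool.Agent.Y760.ZG.mz).prod = 0 ∧
        ∀ (A : Type) [CommRing A] (Z : List ℕ → A), HasStuffleProduct Z →
          ∑ i, ∑ t ∈ I i, (a j i t : A) * ((L i t).map Z).prod = 0 := by
    intro j b' hb' hs'
    obtain ⟨h1, h2⟩ := h0 k hk F I L (a j)
      { slope := fun i w hw z hz => (hF i w hw).2 z hz
        ne := fun i w hw => (hF i w hw).1
        It := fun i t ht => (hI i t ht).1
        ev := fun i t ht => (hI i t ht).2.1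
        wt := fun i t ht => (hI i t ht).2.2.1
        arg := fun i t ht => (hI i t ht).2.2.2.1
        coef := fun i t ht => (hI i t ht).2.2.2.2 j } G
      (fun h hh => ⟨(adm_small (hG h hh).1).1, (adm_small (hG h hh).1).2, (hG h hh).2.1, (hG h hh).2.2⟩) b' hb'
      (by rw [hf] at hs'; exact hs')
    refine ⟨h1, fun A _ Z hZ => h2 A Z fun u v hu hv => ?_⟩
    rw [hZ u v ((adm_iff u).1 hu) ((adm_iff v).1 hv), stuffles_eq]
  intro j
  fin_cases j
  · exact key 0 (fun h => (b h).re) (fun h hh => (Complex.abs_re_le_norm _).trans (hb h hh)) (by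
      rw [← hre]
      exact (Complex.abs_re_le_norm _).trans hV1)
  · exact key 1 (fun h => (b h).im / (2 * Real.pi)) (fun h hh => by
      rw [abs_div, abs_of_pos hmu0]
      exact (div_le_self (abs_nonneg _) hmu1.le).trans ((Complex.abs_im_le_norm _).trans (hb h hh))) (by
      have h3 := (Complex.abs_im_le_norm _).trans hV1
      rw [him, abs_mul, abs_of_pos hmu0] at h3
      exact le_trans (le_mul_of_one_le_left (abs_nonneg _) hmu1.le) h3)

end Pool.Agent.Results.MP_807c24_nt.RelationsOnLines
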